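import Mathlib
import Pool.Agent.H99.FilterComplDefs

set_option autoImplicit false

namespace Pool.Agent.Results.MP_6ca30a_an.NoUniversal

open Filter Topology Cardinal Pool.Agent.H99.FilterCompl

variable {𝕜 : Type} [RCLike 𝕜]

lemma exists_dense_seq : ∃ d : ℕ → (𝕜 → 𝕜), DenseRange d := by
  classical
  have h1 : DenseRange (fun f : C(𝕜, 𝕜) => (f : 𝕜 → 𝕜)) := by
    intro y
    rw [mem_closure_iff_nhds]
    intro t ht
    rw [nhds_pi, Filter.mem_pi] at ht
    obtain ⟨I, hI, s, hs, hsub⟩ := ht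
    refine ⟨_, hsub ?_, ⟨⟨fun z => (Lagrange.interpolate hI.toFinset id y).eval z,
      Polynomial.continuous _⟩, rfl⟩⟩
    intro i hi
    have := Lagrange.eval_interpolate_at_node (s := hI.toFinset) (v := id) y (i := i)
      (Set.injOn_id _) (by simpa using hi)
    simp only [id] at this
    simp only [ContinuousMap.coe_mk, this]
    exact mem_of_mem_nhds (hs i)
  have : TopologicalSpace.SeparableSpace (𝕜 → 𝕜) :=
    h1.separableSpace (continuous_pi fun t => continuous_eval_const t)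
  exact TopologicalSpace.exists_dense_seq _

/-- arities of the generating operations -/
def ar : Option (ℕ ⊕ 𝕜) → Type
  | some (Sum.inl _) => Empty
  | _ => ℕ

/-- evaluation of codes -/
noncomputable def ev (U : Filter ℕ) (d : ℕ → (𝕜 → 𝕜)) : WType (ar (𝕜 := 𝕜)) → (𝕜 → 𝕜)
  | ⟨some (Sum.inl n), _⟩ => d n
  | ⟨some (Sum.inr c), f⟩ => ev U d (f (0 : ℕ)) + c • ev U d (f (1 : ℕ))
  | ⟨none, f⟩ => limUnder U fun n : ℕ => ev U d (f n)

lemma card_k : #𝕜 = 𝔠 := by
  apply le_antisymm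
  · have := mk_le_of_injective (f := fun z : 𝕜 => (RCLike.re z, RCLike.im z)) (by
      intro z w h
      exact RCLike.ext (congrArg Prod.fst h) (congrArg Prod.snd h))
    simpa [mk_real] using this
  · rw [← mk_real]
    exact mk_le_of_injective (RCLike.ofReal_injective (K := 𝕜))

lemma card_codes : #(WType (ar (𝕜 := 𝕜))) ≤ 𝔠 := by
  apply WType.cardinalMk_le_of_le
  refine (sum_le_sum _ (fun _ => 𝔠) fun a => ?_).trans ?_
  · rcases a with _ | _ | _
    · simp [ar]
    · simp only [ar, mk_eq_zero, power_zero]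
      exact one_le_aleph0.trans aleph0_le_continuum
    · simp [ar]
  · simp [card_k]
    rw [add_one_eq aleph0_le_continuum, continuum_mul_self]

lemma comb (U : Filter ℕ) (d : ℕ → (𝕜 → 𝕜)) (c : 𝕜) {x y : 𝕜 → 𝕜} (hx : x ∈ Set.range (ev U d))
    (hy : y ∈ Set.range (ev U d)) : x + c • y ∈ Set.range (ev U d) := by
  obtain ⟨a, rfl⟩ := hx
  obtain ⟨b, rfl⟩ := hy
  exact ⟨⟨some (Sum.inr c), fun n : ℕ => if n = 0 then a else b⟩, by simp [ev]⟩

/-- the subspace generated by d under U-limits -/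
noncomputable def sp (U : Filter ℕ) (d : ℕ → (𝕜 → 𝕜)) : Submodule 𝕜 (𝕜 → 𝕜) where
  carrier := Set.range (ev U d)
  add_mem' hx hy := by simpa using comb U d 1 hx hy
  zero_mem' := by
    have h : d 0 ∈ Set.range (ev U d) := ⟨⟨some (Sum.inl 0), Empty.elim⟩, rfl⟩
    simpa using comb U d (-1) h h
  smul_mem' c x hx := by
    have h := comb U d (c - 1) hx hx
    rwa [sub_smul, one_smul, add_sub_cancel] at h

lemma pi_compl {X : Submodule 𝕜 (𝕜 → 𝕜)} {F : Filter ℕ} [F.NeBot] (x : ℕ → X)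
    (hx : ∀ U ∈ 𝓝 (0 : X), ∃ B ∈ F, ∀ m ∈ B, ∀ n ∈ B, x m - x n ∈ U) :
    ∃ y : 𝕜 → 𝕜, Tendsto (fun n => (x n : 𝕜 → 𝕜)) F (𝓝 y) := by
  have h : ∀ t, ∃ y, Tendsto (fun n => (x n : 𝕜 → 𝕜) t) F (𝓝 y) := by
    intro t
    rw [← cauchy_map_iff_exists_tendsto, Metric.cauchy_iff]
    refine ⟨inferInstance, fun ε hε => ?_⟩
    have hc : Continuous fun z : X => (z : 𝕜 → 𝕜) t :=
      (continuous_apply t).comp continuous_subtype_val
    obtain ⟨B, hB, h2⟩ := hx ((fun z : X => (z : 𝕜 → 𝕜) t) ⁻¹' Metric.ball 0 ε)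
      (hc.continuousAt.preimage_mem_nhds (by simpa using Metric.ball_mem_nhds (0:𝕜) hε))
    refine ⟨_, image_mem_map hB, ?_⟩
    rintro _ ⟨m, hm, rfl⟩ _ ⟨n, hn, rfl⟩
    simpa [dist_eq_norm] using h2 m hm n hn
  choose y hy using h
  exact ⟨y, tendsto_pi_nhds.2 hy⟩

/-- No free ultrafilter on ℕ is universal. -/
theorem result : ∀ (𝕜 : Type) [RCLike 𝕜] (U : Ultrafilter ℕ), (U : Filter ℕ) ≤ cofinite →
    ∃ (X : Type) (_ : AddCommGroup X) (_ : Module 𝕜 X) (_ : TopologicalSpace X),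
      IsTopologicalAddGroup X ∧ ContinuousSMul 𝕜 X ∧ T2Space X ∧ ComplOver X U ∧
      ¬ ∀ F : Filter ℕ, F.NeBot → F ≤ cofinite → ComplOver X F := by
  intro 𝕜 _ U _
  obtain ⟨d, hd⟩ := exists_dense_seq (𝕜 := 𝕜)
  refine ⟨sp U d, inferInstance, inferInstance, inferInstance, inferInstance, inferInstance,
    inferInstance, fun x hx => ?_, fun h => ?_⟩
  · obtain ⟨y, hy⟩ := pi_compl x hx
    choose a ha using fun n => (x n).2
    refine ⟨⟨y, ⟨⟨none, a⟩, ?_⟩⟩, tendsto_subtype_rng.2 hy⟩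
    simp only [ev, ha]
    exact hy.limUnder_eq
  · have hall : ∀ y : 𝕜 → 𝕜, y ∈ sp (U : Filter ℕ) d := by
      intro y
      let x : ℕ → sp (U : Filter ℕ) d := fun n =>
        ⟨d (Nat.unpair n).1, ⟨⟨some (Sum.inl (Nat.unpair n).1), Empty.elim⟩, rfl⟩⟩
      let F : Filter ℕ := comap (fun n => d (Nat.unpair n).1) (𝓝 y) ⊓ cofinite
      have hne : F.NeBot := by
        rw [inf_neBot_iff]
        rintro s ⟨t, ht, hts⟩ s' hs'
        obtain ⟨_, h1, k, rfl⟩ := mem_closure_iff_nhds.1 (hd y) t ht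
        have h2 : Tendsto (fun j => Nat.pair k j) cofinite cofinite :=
          Function.Injective.tendsto_cofinite fun a b hab => (Nat.pair_eq_pair.1 hab).2
        obtain ⟨j, hj⟩ := (h2.eventually hs').exists
        exact ⟨Nat.pair k j, hts (by simpa using h1), hj⟩
      have ht : Tendsto (fun n => d (Nat.unpair n).1) F (𝓝 y) := tendsto_inf_left tendsto_comap
      obtain ⟨z, hz⟩ := h F hne inf_le_right x (by
        intro V hV
        have h3 : Tendsto (fun p : ℕ × ℕ => x p.1 - x p.2) (F ×ˢ F) (𝓝 0) := by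
          rw [tendsto_subtype_rng]
          have := (ht.comp tendsto_fst).sub (ht.comp (tendsto_snd (f := F)))
          simpa using this
        obtain ⟨B, hB, h4⟩ := mem_prod_self_iff.1 (h3 hV)
        exact ⟨B, hB, fun m hm n hn => h4 (Set.mk_mem_prod hm hn)⟩)
      rw [tendsto_nhds_unique ht (tendsto_subtype_rng.1 hz)]
      exact z.2
    have h1 : #(𝕜 → 𝕜) ≤ 𝔠 :=
      (mk_le_of_surjective (f := ev (U : Filter ℕ) d) hall).trans card_codes
    rw [← power_def, card_k] at h1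
    have h2 := (power_le_power_right (c := 𝔠) (a := 2)
      ((natCast_lt_aleph0 (n := 2)).le.trans aleph0_le_continuum)).trans h1
    exact absurd h2 (not_le.2 (cantor _))

end Pool.Agent.Results.MP_6ca30a_an.NoUniversal
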